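import Pool.Agent.R609.TentRed

/-!
# Inclusion modulo finite sets embeds into Lipschitz and into smooth reducibility

There is one family of intersections `A x` (`x` a set of natural numbers) of an open and a closed
set of reals such that `x ⊆ y` modulo a finite set if and only if `A x` is reducible to `A y`, for
every notion of reducibility between reducibility by Lipschitz functions of class `C^∞` and
reducibility by continuous functions; in particular for reducibility by Lipschitz functions and for
reducibility by functions of class `C^∞`.

The set `A x` is the preimage of the union of the intervals `[2 k, 2 k + 1)` under a function which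
is zero on the negative half line and has infinitely many tents, of the heights `1, 2, 3, ...`, on
the positive half line; the top of the `m`-th tent is a point if `m ∈ x` and an interval otherwise.
A continuous reduction preserves the heights (rounded down), so it maps all but finitely many tents
onto the tents of the same height. A finite number of tents is removed by folding.
-/

set_option autoImplicit false

open scoped ContDiff

namespace Pool.Agent.Results.MP_b9d480_lc.LipschitzSmooth

/-- `A` is the intersection of an open and a closed set. -/
def IsDTwo (A : Set ℝ) : Prop := ∃ U C : Set ℝ, IsOpen U ∧ IsClosed C ∧ A = U ∩ C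

/-- `A` is reducible to `B` by a function in the class `F`. -/
def ReducibleBy (F : Set (ℝ → ℝ)) (A B : Set ℝ) : Prop := ∃ f ∈ F, A = f ⁻¹' B

/-- The class of the Lipschitz functions. -/
def Lip : Set (ℝ → ℝ) := {f | ∃ K, LipschitzWith K f}

/-- The class of the infinitely differentiable functions. -/
def Smooth : Set (ℝ → ℝ) := {f | ContDiff ℝ ∞ f}

/-- There is a family of intersections `A x` of an open and a closed set such that for all sets
`x`, `y` of natural numbers `x \ y` is finite if and only if `A x` is reducible to `A y` by a
Lipschitz function, if and only if `A x` is reducible to `A y` by a `C^∞` function, and in the same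
way for every other class of continuous functions containing the Lipschitz functions of class
`C^∞`. -/
theorem result : ∃ A : Set ℕ → Set ℝ, (∀ x, IsDTwo (A x)) ∧
    (∀ x y : Set ℕ, (x \ y).Finite ↔ ReducibleBy Lip (A x) (A y)) ∧
    (∀ x y : Set ℕ, (x \ y).Finite ↔ ReducibleBy Smooth (A x) (A y)) ∧
    ∀ F : Set (ℝ → ℝ), Lip ∩ Smooth ⊆ F → (∀ f ∈ F, Continuous f) →
      ∀ x y : Set ℕ, (x \ y).Finite ↔ ReducibleBy F (A x) (A y) := by
  obtain ⟨h1, h2, h3⟩ := Pool.Agent.R609.Tents.main
  have key : ∀ F : Set (ℝ → ℝ), Lip ∩ Smooth ⊆ F → (∀ f ∈ F, Continuous f) →
      ∀ x y : Set ℕ, (x \ y).Finite ↔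
        ReducibleBy F (Pool.Agent.R609.Tents.A x) (Pool.Agent.R609.Tents.A y) := by
    intro F hF hF' x y
    constructor
    · intro h
      obtain ⟨f, hf, hK, hA⟩ := h2 x y h
      exact ⟨f, hF ⟨hK, hf⟩, hA⟩
    · rintro ⟨f, hf, hA⟩
      exact h3 x y ⟨f, hF' f hf, hA⟩
  refine ⟨Pool.Agent.R609.Tents.A, h1, key Lip Set.inter_subset_left ?_,
    key Smooth Set.inter_subset_right ?_, key⟩
  · rintro f ⟨K, hK⟩
    exact hK.continuous
  · intro f hf
    have hf' : ContDiff ℝ ∞ f := hf
    exact hf'.continuous

end Pool.Agent.Results.MP_b9d480_lc.LipschitzSmooth
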